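import Pool.Agent.Run7.h433.Nak.Iface

/-! The piece GRD: degrees of the operators. -/

set_option autoImplicit false

namespace Run7.h433.Nak.H480

open Run7.h433.Nak

/-- the table `n` shifts the degrees by `(c, c')` -/
def dchk (n c : ℕ) (c' : ℤ) : Bool := (List.range 128).all fun j => (row n j).all fun p =>
  (nI p.2 % 2 == (nI j + c) % 2) && (nG p.2 == nG j + c')

theorem cf_ne (l : Row) (i : ℕ) (h : cf l i ≠ 0) : ∃ p ∈ l, p.2 = i := by
  induction l with
  | nil => exact absurd rfl h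
  | cons p l ih =>
    rw [cf] at h
    by_cases hp : p.2 = i
    · exact ⟨p, by simp, hp⟩
    · rw [if_neg hp, zero_add] at h
      obtain ⟨q, hq, hqi⟩ := ih h
      exact ⟨q, by simp [hq], hqi⟩

theorem deg_of (n c : ℕ) (c' : ℤ) (hc : dchk n c c' = true) (r s : I) (h : mt n r s ≠ 0) :
    ((nI r : ℕ) : ZMod 2) = (nI s : ZMod 2) + (c : ZMod 2) ∧ nG r = nG s + c' := by
  have h1 : cf (row n s) r ≠ 0 := by
    intro h0
    apply h
    show ((cf (row n s) r : ℤ) : ℚ) = 0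
    rw [h0]
    simp
  obtain ⟨p, hp, hpr⟩ := cf_ne _ _ h1
  rw [dchk, List.all_eq_true] at hc
  have h2 := hc s (List.mem_range.2 s.isLt)
  rw [List.all_eq_true] at h2
  have h3 := h2 p hp
  rw [Bool.and_eq_true, beq_iff_eq, beq_iff_eq, hpr] at h3
  refine ⟨?_, h3.2⟩
  have h4 : ((nI r : ℕ) : ZMod 2) = ((nI s + c : ℕ) : ZMod 2) :=
    (ZMod.natCast_eq_natCast_iff _ _ _).mpr h3.1
  rw [h4]
  push_cast
  rfl

variable {V : Type} [AddCommGroup V] [Module ℚ V]

theorem oM_deg (n c : ℕ) (c' : ℤ) (hc : dchk n c c' = true) (i : ZMod 2) (g : ℤ) (x : W V)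
    (hx : x ∈ Wg V i g) : oM (mt n) x ∈ Wg V (i + (c : ZMod 2)) (g - c') := by
  intro τ r h
  have h' : (∑ s : I, mt n r s • x τ s) ≠ 0 := h
  obtain ⟨s, -, hs⟩ := Finset.exists_ne_zero_of_sum_ne_zero h'
  have h1 := deg_of n c c' hc r s (fun h0 => hs (by rw [h0, zero_smul]))
  have h2 := hx τ s (fun h0 => hs (by rw [h0, smul_zero]))
  unfold sI sG at h2 ⊢
  rw [h1.1, h1.2, ← h2.1, ← h2.2]
  constructor
  · ring
  · ring

theorem oL_deg {V' : Type} [AddCommGroup V'] [Module ℚ V'] (P : V →ₗ[ℚ] V') (i : ZMod 2) (g : ℤ)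
    (x : W V) (hx : x ∈ Wg V i g) : oL P x ∈ Wg V' i g := by
  intro τ r h
  apply hx τ r
  intro h0
  apply h
  rw [oL_apply, h0, map_zero]

theorem c0 : dchk 0 1 0 = true := by decide +kernel
theorem c1 : dchk 1 1 0 = true := by decide +kernel
theorem c2 : dchk 2 0 2 = true := by decide +kernel
theorem c3 : dchk 3 0 2 = true := by decide +kernel
theorem c4 : dchk 4 0 2 = true := by decide +kernel
theorem c5 : dchk 5 0 (-3) = true := by decide +kernel
theorem c6 : dchk 6 0 (-3) = true := by decide +kernel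
theorem c14 : dchk 14 1 0 = true := by decide +kernel
theorem c15 : dchk 15 0 (-2) = true := by decide +kernel

theorem degA (i : ZMod 2) (g : ℤ) (x : W V) (hx : x ∈ Wg V i g) : oM mA x ∈ Wg V (i + 1) g := by
  have h := oM_deg 0 1 0 c0 i g x hx
  rwa [Nat.cast_one, sub_zero] at h

theorem degB (i : ZMod 2) (g : ℤ) (x : W V) (hx : x ∈ Wg V i g) : oM mB x ∈ Wg V (i + 1) g := by
  have h := oM_deg 1 1 0 c1 i g x hx
  rwa [Nat.cast_one, sub_zero] at h

theorem degZ (i : ZMod 2) (g : ℤ) (x : W V) (hx : x ∈ Wg V i g) : oM mZ x ∈ Wg V i (g - 2) := by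
  have h := oM_deg 2 0 2 c2 i g x hx
  rwa [Nat.cast_zero, add_zero] at h

theorem degF (i : ZMod 2) (g : ℤ) (x : W V) (hx : x ∈ Wg V i g) : oM mF x ∈ Wg V i (g - 2) := by
  have h := oM_deg 3 0 2 c3 i g x hx
  rwa [Nat.cast_zero, add_zero] at h

theorem degX (i : ZMod 2) (g : ℤ) (x : W V) (hx : x ∈ Wg V i g) : oM mX x ∈ Wg V i (g - 2) := by
  have h := oM_deg 4 0 2 c4 i g x hx
  rwa [Nat.cast_zero, add_zero] at h

theorem degY1 (i : ZMod 2) (g : ℤ) (x : W V) (hx : x ∈ Wg V i g) : oM mY1 x ∈ Wg V i (g + 3) := by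
  have h := oM_deg 5 0 (-3) c5 i g x hx
  rwa [Nat.cast_zero, add_zero, sub_neg_eq_add] at h

theorem degY2 (i : ZMod 2) (g : ℤ) (x : W V) (hx : x ∈ Wg V i g) : oM mY2 x ∈ Wg V i (g + 3) := by
  have h := oM_deg 6 0 (-3) c6 i g x hx
  rwa [Nat.cast_zero, add_zero, sub_neg_eq_add] at h

theorem degD (i : ZMod 2) (g : ℤ) (x : W V) (hx : x ∈ Wg V i g) : oda x ∈ Wg V (i + 1) g := by
  have h := oM_deg 14 1 0 c14 i g x hx
  rwa [Nat.cast_one, sub_zero] at h

theorem degE (i : ZMod 2) (g : ℤ) (x : W V) (hx : x ∈ Wg V i g) : odz x ∈ Wg V i (g + 2) := by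
  have h := oM_deg 15 0 (-2) c15 i g x hx
  rwa [Nat.cast_zero, add_zero, sub_neg_eq_add] at h

theorem GRD : S_GRD := by
  intro V _ _
  refine
    { a := ?_, z := ?_, k := ?_, D := degD, E := degE, A := degA, B := degB, Z := degZ,
      F := degF, X := degX, Y1 := degY1, Y2 := degY2, Y := ?_,
      L := fun V' _ _ P i g x hx => oL_deg P i g x hx }
  · intro S i g x hx
    exact Submodule.sub_mem _ (degA i g x hx) (oL_deg _ _ _ _ (degB i g x hx))
  · intro S i g x hx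
    exact Submodule.sub_mem _ (Submodule.sub_mem _ (degZ i g x hx)
      (oL_deg _ _ _ _ (degF i g x hx))) (oL_deg _ _ _ _ (degX i g x hx))
  · intro i g x hx
    have h := degX _ _ _ (degF _ _ _ (degB i g x hx))
    have e : ok x = oM mX (oM mF (oM mB x)) := by
      show oM (mX * mF * mB) x = _
      rw [oM_mul, oM_mul]
    rw [e]
    have e2 : g - 2 - 2 = g - 4 := by ring
    rwa [e2] at h
  · intro V' _ _ P Q i g x hx
    exact Submodule.add_mem _ (oL_deg _ _ _ _ (degY1 i g x hx)) (oL_deg _ _ _ _ (degY2 i g x hx))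

end Run7.h433.Nak.H480
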