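import Pool.Agent.Run7.h433.Nak.Iface

/-! The piece OPSY: identities for `Y`. -/

set_option autoImplicit false

namespace Run7.h433.Nak.H480

open Run7.h433.Nak

section

variable {V V' V'' : Type} [AddCommGroup V] [Module ℚ V] [AddCommGroup V'] [Module ℚ V']
  [AddCommGroup V''] [Module ℚ V'']

theorem oL_add (m m' : V →ₗ[ℚ] V') (x : W V) : oL (m + m') x = oL m x + oL m' x := rfl

theorem oL_sub (m m' : V →ₗ[ℚ] V') (x : W V) : oL (m - m') x = oL m x - oL m' x := rfl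

theorem oa_def (S : SL V) (x : W V) : oa S x = oM mA x - oL S.e (oM mB x) := rfl

theorem oz_def (S : SL V) (x : W V) :
    oz S x = oM mZ x - oL S.f (oM mF x) - oL S.h (oM mX x) := rfl

theorem oY_def (P Q : V →ₗ[ℚ] V') (x : W V) : oY P Q x = oL P (oM mY1 x) + oL Q (oM mY2 x) := rfl

/-- `Y` commutes with a small matrix commuting with `y1, y2` -/
theorem Y_comm (P Q : V →ₗ[ℚ] V') {M : Matrix I I ℚ} (h1 : mY1 * M = M * mY1)
    (h2 : mY2 * M = M * mY2) (x : W V) : oY P Q (oM M x) = oM M (oY P Q x) := by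
  rw [oY_def, oY_def, ← oM_mul, ← oM_mul, h1, h2, map_add, oM_oL, oM_oL, oM_mul, oM_mul]

theorem opsY (S' : SL V') (S : SL V) (P Q : V' →ₗ[ℚ] V) (hR : YRel S' S P Q) :
    OpsY S' S P Q where
  Ya x := by
    have e1 : P ∘ₗ S'.e = S.e ∘ₗ P + Q := by rw [← hR.pe]; abel
    have e2 : Q ∘ₗ S'.e = S.e ∘ₗ Q := hR.qe
    simp only [oa_def, oY_def, map_sub, map_add, oM_oL, oL_oL, ← oM_mul]
    rw [rel_Y1A, rel_Y2A, rel_Y1B, rel_Y2B, e1, e2]
    simp only [oM_add, map_add, oL_add]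
    abel
  Yz x := by
    have e1 : P ∘ₗ S'.f = S.f ∘ₗ P := hR.pf
    have e2 : Q ∘ₗ S'.f = S.f ∘ₗ Q + P := by rw [← hR.qf]; abel
    have e3 : P ∘ₗ S'.h = S.h ∘ₗ P + P := by
      have := hR.ph
      conv_rhs => arg 2; rw [← this]
      abel
    have e4 : Q ∘ₗ S'.h = S.h ∘ₗ Q - Q := by
      have := hR.qh
      rw [sub_eq_add_neg]
      conv_rhs => arg 2; rw [← this]
      abel
    simp only [oz_def, oY_def, map_sub, map_add, oM_oL, oL_oL, ← oM_mul]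
    rw [rel_Y1Z, rel_Y2Z, rel_Y1F, rel_Y2F, rel_Y1X, rel_Y2X, e1, e2, e3, e4]
    simp only [oM_add, oM_sub, map_add, map_sub, oL_add, oL_sub]
    abel
  Yk x := by
    apply Y_comm
    · rw [← mul_assoc, ← mul_assoc, rel_Y1X, mul_assoc mX mY1 mF, rel_Y1F, ← mul_assoc,
        mul_assoc (mX * mF) mY1 mB, rel_Y1B, ← mul_assoc]
    · rw [← mul_assoc, ← mul_assoc, rel_Y2X, mul_assoc mX mY2 mF, rel_Y2F, ← mul_assoc,
        mul_assoc (mX * mF) mY2 mB, rel_Y2B, ← mul_assoc]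
  YD x := Y_comm P Q rel_dAY1.symm rel_dAY2.symm x
  YE x := Y_comm P Q rel_dZY1.symm rel_dZY2.symm x

theorem YY (P Q : V'' →ₗ[ℚ] V') (P' Q' : V' →ₗ[ℚ] V) (h : P' ∘ₗ Q = Q' ∘ₗ P) (x : W V'') :
    oY P' Q' (oY P Q x) = 0 := by
  simp only [oY_def, map_add, oM_oL, oL_oL, ← oM_mul]
  rw [rel_Y1Y1, rel_Y2Y2, rel_Y2Y1, h, oM_zero, oM_neg, map_zero, map_zero, map_neg]
  abel

end

theorem OPSY : S_OPSY :=
  ⟨fun _ _ _ _ _ _ S' S P Q hR => opsY S' S P Q hR,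
    fun _ _ _ _ _ _ _ _ _ P Q P' Q' h x => YY P Q P' Q' h x⟩

end Run7.h433.Nak.H480
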